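import Pool.Agent.Q234.KG.Stm
import Pool.Agent.Q63.KT.CN

/-!
# Project KG, job CN: the number of typed sets of polymers through a site
-/

set_option autoImplicit false

open scoped BigOperators
open Finset Pool.Agent.Q234.KG

namespace Pool.Agent.Q53.KG.CN

theorem card_sp {V : Type} [Fintype V] [DecidableEq V] (d : ℕ) [NeZero d] (X : Finset V) :
    (univ.filter (fun l : V → Fin d => sp l ⊆ X)).card ≤ d ^ X.card := by
  classical
  have h1 : (univ : Finset (X → Fin d)).card = d ^ X.card := by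
    rw [Finset.card_univ, Fintype.card_fun, Fintype.card_coe, Fintype.card_fin]
  rw [← h1]
  refine Finset.card_le_card_of_injOn (fun l => fun x : X => l x) (fun l _ => Finset.mem_coe.2 (Finset.mem_univ _)) ?_
  intro l hl l' hl' hll
  rw [Finset.mem_coe, Finset.mem_filter] at hl hl'
  funext v
  by_cases hv : v ∈ X
  · exact congrFun hll ⟨v, hv⟩
  · have h2 : ∀ k : V → Fin d, sp k ⊆ X → k v = 0 := by
      intro k hk
      by_contra hc
      refine hv (hk ?_)
      unfold sp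
      rw [Finset.mem_filter]
      exact ⟨Finset.mem_univ _, hc⟩
    rw [h2 l hl.2, h2 l' hl'.2]

theorem sumB {V : Type} [Fintype V] [DecidableEq V] (d : ℕ) [NeZero d] (h : Pol V → Finset V) (v : V) (y : ℝ) (hy : 0 ≤ y)
    (hsub : ∀ X, X.1 ⊆ h X) :
    ∑ p ∈ univ.filter (fun p : Pol V × (V → Fin d) => sp p.2 ⊆ p.1.1 ∧ v ∈ h p.1), y ^ (h p.1).card ≤
      ∑ X ∈ univ.filter (fun X => v ∈ h X), (d * y) ^ (h X).card := by
  classical
  have hd : 1 ≤ d := Nat.one_le_iff_ne_zero.2 (NeZero.ne d)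
  have e1 : ∑ p ∈ univ.filter (fun p : Pol V × (V → Fin d) => sp p.2 ⊆ p.1.1 ∧ v ∈ h p.1), y ^ (h p.1).card =
      ∑ X ∈ univ.filter (fun X => v ∈ h X), ∑ l ∈ univ.filter (fun l : V → Fin d => sp l ⊆ X.1), y ^ (h X).card := by
    rw [Finset.sum_filter, Fintype.sum_prod_type, Finset.sum_filter]
    refine Finset.sum_congr rfl fun X _ => ?_
    rw [Finset.sum_filter]
    by_cases hX : v ∈ h X
    · rw [if_pos hX]
      refine Finset.sum_congr rfl fun l _ => ?_
      by_cases hl : sp l ⊆ X.1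
      · rw [if_pos ⟨hl, hX⟩, if_pos hl]
      · rw [if_neg (fun hc => hl hc.1), if_neg hl]
    · rw [if_neg hX]
      exact Finset.sum_eq_zero fun l _ => if_neg fun hc => hX hc.2
  rw [e1]
  refine Finset.sum_le_sum fun X _ => ?_
  rw [Finset.sum_const, nsmul_eq_mul, mul_pow]
  refine mul_le_mul_of_nonneg_right ?_ (by positivity)
  have h1 := card_sp d X.1
  have h2 : d ^ X.1.card ≤ d ^ (h X).card := Nat.pow_le_pow_right hd (Finset.card_le_card (hsub X))
  exact_mod_cast h1.trans h2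

theorem main : CntS := by
  classical
  intro d _ V _ _ h a s v ha hsub hc
  have ha' : (0 : ℝ) < a := by exact_mod_cast ha
  have ha1 : (1 : ℝ) ≤ a := by exact_mod_cast ha
  have hd1 : (1 : ℝ) ≤ d := by exact_mod_cast Nat.one_le_iff_ne_zero.2 (NeZero.ne d)
  have hd0 : (0 : ℝ) < d := by linarith
  set y : ℝ := 1 / (8 * a * d) with hy
  have hy0 : 0 < y := by positivity
  have hy1 : y ≤ 1 := by
    rw [hy, div_le_one (by positivity)]
    nlinarith
  have hya : 2 * (d * y) * a = 1 / 4 := by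
    rw [hy]
    field_simp
    norm_num
  have hyi : y * (8 * a * d) = 1 := by
    rw [hy]
    field_simp
  set U := univ.filter (fun p : Pol V × (V → Fin d) => sp p.2 ⊆ p.1.1 ∧ v ∈ h p.1) with hU
  have h1 : ((typ d h s v).card : ℝ) * y ^ s ≤ ∑ Q ∈ typ d h s v, ∏ p ∈ Q, y ^ (h p.1).card := by
    rw [← nsmul_eq_mul]
    apply Finset.card_nsmul_le_sum
    intro Q hQ
    rw [Finset.prod_pow_eq_pow_sum]
    unfold typ at hQ
    rw [Finset.mem_filter] at hQ
    exact pow_le_pow_of_le_one hy0.le hy1 hQ.2.2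
  have h2 : ∑ Q ∈ typ d h s v, ∏ p ∈ Q, y ^ (h p.1).card ≤
      ∑ Q ∈ U.powerset, ∏ p ∈ Q, y ^ (h p.1).card := by
    apply Finset.sum_le_sum_of_subset_of_nonneg
    · intro Q hQ
      unfold typ at hQ
      rw [Finset.mem_filter] at hQ
      rw [Finset.mem_powerset]
      intro p hp
      rw [hU, Finset.mem_filter]
      exact ⟨mem_univ _, hQ.2.1 p hp⟩
    · intro Q _ _
      positivity
  have h3 : ∑ Q ∈ U.powerset, ∏ p ∈ Q, y ^ (h p.1).card = ∏ p ∈ U, (1 + y ^ (h p.1).card) :=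
    (Finset.prod_one_add _).symm
  have h4 : ∏ p ∈ U, (1 + y ^ (h p.1).card) ≤ Real.exp (∑ p ∈ U, y ^ (h p.1).card) := by
    rw [Real.exp_sum]
    apply Finset.prod_le_prod
    · intro p _
      positivity
    · intro p _
      rw [add_comm]
      exact Real.add_one_le_exp _
  have h5 : ∑ p ∈ U, y ^ (h p.1).card ≤ 2 / 3 := by
    rw [hU]
    refine (sumB d h v y hy0.le hsub).trans ?_
    have := Pool.Agent.Q63.KT.CN.sumT h a v (d * y) (by positivity) hya hsub hc
    linarith
  have h6 : Real.exp (2 / 3) ≤ 2 := by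
    have h7 : Real.exp (2 / 3) ^ 3 ≤ 2 ^ 3 := by
      rw [← Real.exp_nat_mul]
      have : ((3 : ℕ) : ℝ) * (2 / 3) = 1 + 1 := by norm_num
      rw [this, Real.exp_add]
      have := Real.exp_one_lt_d9
      have h0 := Real.exp_pos 1
      nlinarith
    exact le_of_pow_le_pow_left₀ (by norm_num) (by norm_num) h7
  have h8 : ((typ d h s v).card : ℝ) * y ^ s ≤ 2 :=
    le_trans h1 (le_trans h2 (h3 ▸ le_trans h4 (le_trans (Real.exp_le_exp.2 h5) h6)))
  calc ((typ d h s v).card : ℝ) = ((typ d h s v).card : ℝ) * y ^ s * (8 * a * d : ℝ) ^ s := by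
        rw [mul_assoc, ← mul_pow, hyi, one_pow, mul_one]
    _ ≤ 2 * (8 * a * d : ℝ) ^ s := mul_le_mul_of_nonneg_right h8 (by positivity)

end Pool.Agent.Q53.KG.CN
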