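import Pool.Agent.Q234.KG.Stm

/-!
# Project KG, job EG: the fixed point is an eigenvector
-/

set_option autoImplicit false

open scoped BigOperators
open Finset Pool.Agent.Q234.KG

namespace Pool.Agent.Q53.KG.EG

theorem main (h : FourS) : EigS := by
  intro d _ α e V _ _ J _ c w g hα hg σ
  obtain ⟨h1, h2, h3, h4, h5, h6, h7, h8, h9, h10⟩ := h d V
  -- shifts
  have hshift : ∀ b : V → Fin d, Psi g (σ + b) = Psi g σ * Complex.exp (Gp g b σ) := by
    intro b
    unfold Psi Gp
    rw [← Complex.exp_add, ← Finset.sum_add_distrib]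
    congr 1
    refine Finset.sum_congr rfl fun m _ => ?_
    rw [h4]
    ring
  have hH : Hf α c w (Psi g) σ = Psi g σ * (∑ u, ∑ a, α a * Complex.exp (Gp g (Pi.single u a) σ) +
      ∑ j, w j σ * Complex.exp (Gp g (c j) σ)) := by
    unfold Hf
    simp only [hshift]
    rw [mul_add, Finset.mul_sum, Finset.mul_sum]
    congr 1
    · refine Finset.sum_congr rfl fun u _ => ?_
      rw [Finset.mul_sum]
      exact Finset.sum_congr rfl fun a _ => by ring
    · exact Finset.sum_congr rfl fun j _ => by ring
  -- the sum of the coefficients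
  have hα0 : ∑ a, α a = 0 := by
    have h11 := hα.sum 0
    rw [hα.zero, Complex.ofReal_zero] at h11
    rw [← h11]
    refine Finset.sum_congr rfl fun a _ => ?_
    have h12 : cr (0 : Fin d) a = 1 := by
      unfold cr
      simp
    rw [h12, mul_one]
  have hlin : ∑ u, ∑ a, α a * Gp g (Pi.single u a) σ = ∑ m : V → Fin d, (Ee e m : ℂ) * g m * ch m σ := by
    have h11 : ∀ u, ∑ a, α a * Gp g (Pi.single u a) σ = ∑ m : V → Fin d, ((e (m u) : ℝ) : ℂ) * g m * ch m σ := by
      intro u
      unfold Gp
      simp only [Finset.mul_sum]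
      rw [Finset.sum_comm]
      refine Finset.sum_congr rfl fun m _ => ?_
      have h12 : ∀ a, α a * (g m * (ch m (Pi.single u a) - 1) * ch m σ) =
          (α a * cr (m u) a) * (g m * ch m σ) - α a * (g m * ch m σ) := by
        intro a
        rw [h10]
        ring
      rw [Finset.sum_congr rfl fun a _ => h12 a, Finset.sum_sub_distrib, ← Finset.sum_mul, ← Finset.sum_mul,
        hα.sum, hα0]
      ring
    rw [Finset.sum_congr rfl fun u _ => h11 u, Finset.sum_comm]
    refine Finset.sum_congr rfl fun m _ => ?_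
    unfold Ee
    rw [Complex.ofReal_sum, Finset.sum_mul, Finset.sum_mul]
  have hPh : Ph α c w g σ = ∑ u, ∑ a, α a * Complex.exp (Gp g (Pi.single u a) σ) +
      ∑ j, w j σ * Complex.exp (Gp g (c j) σ) - ∑ m : V → Fin d, (Ee e m : ℂ) * g m * ch m σ := by
    rw [← hlin]
    unfold Ph
    have h11 : ∀ u, ∑ a, α a * (Complex.exp (Gp g (Pi.single u a) σ) - 1 - Gp g (Pi.single u a) σ) =
        ∑ a, α a * Complex.exp (Gp g (Pi.single u a) σ) - ∑ a, α a * Gp g (Pi.single u a) σ := by
      intro u
      have h12 : ∀ a, α a * (Complex.exp (Gp g (Pi.single u a) σ) - 1 - Gp g (Pi.single u a) σ) =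
          α a * Complex.exp (Gp g (Pi.single u a) σ) - α a * Gp g (Pi.single u a) σ - α a := fun a => by ring
      rw [Finset.sum_congr rfl fun a _ => h12 a, Finset.sum_sub_distrib, Finset.sum_sub_distrib, hα0, sub_zero]
    rw [Finset.sum_congr rfl fun u _ => h11 u, Finset.sum_sub_distrib]
    ring
  -- the fixed point equation
  have hE : ∀ m : V → Fin d, m ≠ 0 → (Ee e m : ℂ) ≠ 0 := by
    intro m hm
    obtain ⟨v, hv⟩ : ∃ v, m v ≠ 0 := by
      by_contra hcon
      push Not at hcon
      exact hm (funext hcon)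
    have hnn : ∀ k, 0 ≤ e k := by
      intro k
      by_cases hk : k = 0
      · rw [hk, hα.zero]
      · linarith [hα.one k hk]
    have h11 : e (m v) ≤ Ee e m := by
      unfold Ee
      exact Finset.single_le_sum (f := fun v => e (m v)) (fun u _ => hnn _) (Finset.mem_univ v)
    have h12 := hα.one _ hv
    have h13 : Ee e m ≠ 0 := by
      have : 0 < Ee e m := by linarith
      exact this.ne'
    exact_mod_cast h13
  have hfix : ∀ m : V → Fin d, m ≠ 0 → co (Ph α c w g) m = -((Ee e m : ℂ) * g m) := by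
    intro m hm
    have h11 := congrFun hg m
    unfold Tm at h11
    rw [if_neg hm] at h11
    have h12 := hE m hm
    rw [← h11]
    field_simp
  have hE0 : (Ee e (0 : V → Fin d) : ℂ) = 0 := by
    unfold Ee
    simp [hα.zero]
  have hch0 : ch (0 : V → Fin d) σ = 1 := h9 0 σ fun v => Or.inl rfl
  have hkey : ∑ m : V → Fin d, co (Ph α c w g) m * ch m σ + ∑ m : V → Fin d, (Ee e m : ℂ) * g m * ch m σ =
      co (Ph α c w g) 0 := by
    rw [← Finset.sum_add_distrib, Finset.sum_eq_single (0 : V → Fin d)]
    · rw [hE0, hch0]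
      ring
    · intro m _ hm
      rw [hfix m hm]
      ring
    · intro h11
      exact absurd (Finset.mem_univ _) h11
  rw [← h1 (Ph α c w g) σ, hPh] at hkey
  rw [hH, ← hkey]
  ring

end Pool.Agent.Q53.KG.EG
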