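import Pool.Agent.Q234.KG.Stm
import Pool.Agent.Q182.KT.WT

/-!
# Project KG, job WT: the weights of the polymers, from the case of two values of the spins
-/

set_option autoImplicit false

open scoped BigOperators
open Finset Pool.Agent.Q234.KG

namespace Pool.Agent.Q53.KG.WT

theorem exp_bound (z : ℂ) (x : ℝ) (h : ‖z‖ ≤ x) : ‖Complex.exp z - 1‖ ≤ ‖Complex.exp (x : ℂ) - 1‖ := by
  have hx : 0 ≤ x := (norm_nonneg z).trans h
  have h1 := Complex.norm_exp_sub_sum_le_exp_norm_sub_sum z 1
  simp only [Finset.range_one, Finset.sum_singleton, pow_zero, Nat.factorial_zero, Nat.cast_one, div_one] at h1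
  have h2 : Real.exp ‖z‖ - 1 ≤ Real.exp x - 1 := by
    have := Real.exp_le_exp.2 h
    linarith
  have h3 : ‖Complex.exp (x : ℂ) - 1‖ = Real.exp x - 1 := by
    have h4 : Complex.exp (x : ℂ) - 1 = ((Real.exp x - 1 : ℝ) : ℂ) := by
      push_cast
      rfl
    rw [h4, Complex.norm_real, Real.norm_eq_abs, abs_of_nonneg]
    have := Real.add_one_le_exp x
    linarith
  rw [h3]
  exact h1.trans h2

theorem main (h : FourS) : WtS := by
  classical
  intro d _ V _ _ h' a r q g ha hq hr hsub hcnt hnb σ v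
  obtain ⟨-, -, -, -, -, -, -, h8, -, -⟩ := h d V
  set G : Finset V → ℂ := fun X => ((∑ m ∈ univ.filter (fun m : V → Fin d => sp m = X), ‖g m‖ : ℝ) : ℂ) with hG
  have hGn : ∀ X, ‖G X‖ = ∑ m ∈ univ.filter (fun m : V → Fin d => sp m = X), ‖g m‖ := by
    intro X
    rw [hG]
    simp only
    rw [Complex.norm_real, Real.norm_eq_abs, abs_of_nonneg]
    exact Finset.sum_nonneg fun m _ => norm_nonneg _
  have hGb : ∀ x, Pool.Agent.Q234.KT.nb r (fun X => (h' X).card) x G ≤ 1 / 4 := by
    intro x
    refine le_trans (le_of_eq ?_) (hnb x)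
    unfold Pool.Agent.Q234.KT.nb nb
    have e1 : ∑ m ∈ univ.filter (fun m : V → Fin d => m x ≠ 0), ((sp m).card : ℝ) * ‖g m‖ * r ^ (h' (sp m)).card =
        ∑ X ∈ univ.filter (fun X : Finset V => x ∈ X), ∑ m ∈ (univ.filter (fun m : V → Fin d => m x ≠ 0)).filter (fun m => sp m = X),
          ((sp m).card : ℝ) * ‖g m‖ * r ^ (h' (sp m)).card := by
      refine (Finset.sum_fiberwise_of_maps_to (fun m hm => ?_) _).symm
      rw [Finset.mem_filter] at hm ⊢
      refine ⟨Finset.mem_univ _, ?_⟩
      unfold sp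
      rw [Finset.mem_filter]
      exact ⟨Finset.mem_univ _, hm.2⟩
    rw [e1]
    refine Finset.sum_congr rfl fun X hX => ?_
    rw [Finset.mem_filter] at hX
    have e2 : (univ.filter (fun m : V → Fin d => m x ≠ 0)).filter (fun m => sp m = X) =
        univ.filter (fun m : V → Fin d => sp m = X) := by
      rw [Finset.filter_filter]
      refine Finset.filter_congr fun m _ => ?_
      constructor
      · exact fun hm => hm.2
      · intro hm
        refine ⟨?_, hm⟩
        have h9 := hX.2
        rw [← hm] at h9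
        unfold sp at h9
        rw [Finset.mem_filter] at h9
        exact h9.2
    rw [e2, hGn, Finset.mul_sum, Finset.sum_mul]
    refine Finset.sum_congr rfl fun m hm => ?_
    rw [Finset.mem_filter] at hm
    rw [hm.2]
  have hmain := Pool.Agent.Q182.KT.WT.main V h' a r q G ha hq hr hsub hcnt hGb 0 v
  refine le_trans (Finset.sum_le_sum fun X _ => ?_) hmain
  have hr0 : (0 : ℝ) ≤ (2 * q) ^ (h' X.1).card := by
    have : 0 ≤ 2 * q := by linarith
    positivity
  refine mul_le_mul_of_nonneg_right ?_ hr0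
  have hch : Pool.Agent.Q234.KT.ch X.1 (0 : V → Fin 2) = 1 := by
    unfold Pool.Agent.Q234.KT.ch Pool.Agent.Q234.KT.sg
    simp
  rw [hch, mul_one]
  unfold wX
  refine exp_bound _ _ ?_
  refine (norm_sum_le _ _).trans (Finset.sum_le_sum fun m _ => ?_)
  rw [norm_mul, h8, mul_one]

end Pool.Agent.Q53.KG.WT
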